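import Pool.Agent.GTO.StmtsD

/-!
# Squad GTO, row NM2: the numbers of stage 1, threshold 30000
-/

namespace Pool.Agent.GTO.B3.H15

/-- the final inequality for at least 57 curves -/
theorem big_k (n k U : ℝ) (hn : 30000 ≤ n) (hk : 57 ≤ k)
    (hU : k * (0.02 * n + 11.2) - 499 - 0.4946 * n ≤ U) :
    0 < U ∧ 10.0268 * n * (k * (k - 1)) < U * (1.0555 * n + U) := by
  obtain ⟨A, hA⟩ : ∃ A : ℝ, A = n * (0.02 * k - 0.4946) + (11.2 * k - 499) := ⟨_, rfl⟩
  have hAU : A ≤ U := by rw [hA]; linarith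
  have h1 : 0 ≤ 11.2 * k - 499 := by linarith
  have h2 : 0.6454 ≤ 0.02 * k - 0.4946 := by linarith
  have hn0 : 0 < n := by linarith
  have hA0 : 0 < A := by
    rw [hA]
    have : 0 < n * (0.02 * k - 0.4946) := mul_pos hn0 (by linarith)
    linarith
  refine ⟨by linarith, ?_⟩
  have h3 : A * (1.0555 * n + A) ≤ U * (1.0555 * n + U) :=
    mul_le_mul hAU (by linarith) (by positivity) (by linarith)
  refine lt_of_lt_of_le ?_ h3
  -- `A (1.0555 n + A) ≥ n (n α (α + 1.0555) + β (2 α + 1.0555))`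
  have h4 : A * (1.0555 * n + A) = n * (n * ((0.02 * k - 0.4946) * (0.02 * k - 0.4946 + 1.0555)) +
      (11.2 * k - 499) * (2 * (0.02 * k - 0.4946) + 1.0555)) + (11.2 * k - 499) ^ 2 := by
    rw [hA]; ring
  have h5 : 30000 * ((0.02 * k - 0.4946) * (0.02 * k - 0.4946 + 1.0555)) ≤
      n * ((0.02 * k - 0.4946) * (0.02 * k - 0.4946 + 1.0555)) :=
    mul_le_mul_of_nonneg_right hn (mul_nonneg (by linarith) (by linarith))
  have h6 : 10.0268 * (k * (k - 1)) < 30000 * ((0.02 * k - 0.4946) * (0.02 * k - 0.4946 + 1.0555)) +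
      (11.2 * k - 499) * (2 * (0.02 * k - 0.4946) + 1.0555) := by
    nlinarith [mul_nonneg (sub_nonneg.2 hk) (sub_nonneg.2 hk)]
  have h7 : n * (10.0268 * (k * (k - 1))) <
      n * (n * ((0.02 * k - 0.4946) * (0.02 * k - 0.4946 + 1.0555)) +
        (11.2 * k - 499) * (2 * (0.02 * k - 0.4946) + 1.0555)) :=
    mul_lt_mul_of_pos_left (by linarith) hn0
  have h8 : 0 ≤ (11.2 * k - 499) ^ 2 := sq_nonneg _
  rw [h4]
  linarith

/-- the final inequality for at most 56 curves -/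
theorem small_k (n k U : ℝ) (hn : 30000 ≤ n) (hk0 : 10 ≤ k) (hk : k ≤ 56)
    (hU : k * (0.02 * n + 11.2) - 4.78125 * (k * (k - 1)) + 0.085 * n - 2559.2 ≤ U) :
    0 < U ∧ 10.0268 * n * (k * (k - 1)) < U * (1.0555 * n + U) := by
  obtain ⟨σ, hσ⟩ : ∃ σ : ℝ, σ = 0.02 * n + 10.28 - 4.78125 * (k - 1) := ⟨_, rfl⟩
  have hkσ : k * σ ≤ U := by
    rw [hσ]
    have : k * (0.02 * n + 10.28 - 4.78125 * (k - 1)) = k * (0.02 * n + 11.2) -
        4.78125 * (k * (k - 1)) - 0.92 * k := by ring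
    rw [this]; linarith
  have hσ0 : 347 ≤ σ := by rw [hσ]; linarith
  have hk1 : 0 < k := by linarith
  have hn0 : 0 < n := by linarith
  have h0 : 0 < k * σ := mul_pos hk1 (by linarith)
  refine ⟨by linarith, ?_⟩
  have h3 : (k * σ) * (1.0555 * n + k * σ) ≤ U * (1.0555 * n + U) :=
    mul_le_mul hkσ (by linarith) (by positivity) (by linarith)
  refine lt_of_lt_of_le ?_ h3
  have key : 10.0268 * n * (k - 1) < σ * (1.0555 * n + k * σ) := by
    have g1 : n * (0.023 * σ - 0.00013225 * n) ≤ σ ^ 2 := by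
      have : 0 ≤ (σ - 0.0115 * n) ^ 2 := sq_nonneg _
      nlinarith
    have g2 : 4.02 ≤ 0.023 * σ - 0.00013225 * n := by rw [hσ]; linarith
    have g3 : n * 4.02 ≤ σ ^ 2 := (mul_le_mul_of_nonneg_left g2 hn0.le).trans g1
    have g4 : k * (n * 4.02) ≤ k * σ ^ 2 := mul_le_mul_of_nonneg_left g3 hk1.le
    have g5 : 0 < 1.0555 * σ + 4.02 * k - 10.0268 * (k - 1) := by rw [hσ]; linarith
    have g6 : 0 < n * (1.0555 * σ + 4.02 * k - 10.0268 * (k - 1)) := mul_pos hn0 g5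
    linarith
  have h4 := mul_lt_mul_of_pos_left key hk1
  have e1 : k * (10.0268 * n * (k - 1)) = 10.0268 * n * (k * (k - 1)) := by ring
  have e2 : k * (σ * (1.0555 * n + k * σ)) = (k * σ) * (1.0555 * n + k * σ) := by ring
  rw [e1, e2] at h4
  exact h4

/-- the theorem in real numbers -/
theorem real_nm (n N R k s S : ℝ) (hn : 30000 ≤ n) (hN1 : n / 100 - 0.99 ≤ N) (hN2 : N ≤ n / 100)
    (hR0 : 0 ≤ R) (hR : 22 * R ≤ 16 * n) (hk0 : 0 ≤ k) (hs : 0 ≤ s) (hk : k ≤ 56 ∨ 57 ≤ k)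
    (hS : S + 132 * N * R ≤ 96 * N * n + 32 * n)
    (h1 : k * (2 * N + 4) * (n + 459) + 2 * (n - R) * (n - 1) ≤
      (2 * (2 * N + 4) + n + 457) * s + S)
    (h2 : s * s ≤ n * (s + 9 * (k * (k - 1))))
    (h3 : 4 * (n - R) * (n - 918) ≤ 9 * (k * (k - 1)) * (n - 918) + 4 * S + 108 * (n - 918)) :
    False := by
  have hn0 : 0 < n := by linarith
  obtain ⟨P, hP⟩ : ∃ P : ℝ, P = k * (k - 1) := ⟨_, rfl⟩
  rw [← hP] at h2 h3
  have hS' : S ≤ 0.96 * n ^ 2 + 32 * n - 1.32 * (n * R) := by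
    have : 0 ≤ (n / 100 - N) * (96 * n - 132 * R) := mul_nonneg (by linarith) (by linarith)
    nlinarith
  have hA : 1.28 * R + 0.16 * n - 3878 ≤ 9 * P := by
    by_contra hc
    push Not at hc
    have g1 : 9 * P * (n - 918) < (1.28 * R + 0.16 * n - 3878) * (n - 918) :=
      mul_lt_mul_of_pos_right hc (by linarith)
    nlinarith
  have hB : k * (0.02 * n ^ 2 + 11.2 * n) + 1.04 * n ^ 2 - 34 * n - 0.68 * (n * R) ≤
      (1.04 * n + 465) * s := by
    have g1 : 0 ≤ (k * (n + 459)) * (2 * N + 4 - (0.02 * n + 2.02)) :=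
      mul_nonneg (mul_nonneg hk0 (by linarith)) (by linarith)
    have g2 : 0 ≤ (1.04 * n + 465 - (2 * (2 * N + 4) + n + 457)) * s :=
      mul_nonneg (by linarith) hs
    have g3 : k * (2 * N + 4) * (n + 459) = (k * (n + 459)) * (2 * N + 4 - (0.02 * n + 2.02)) +
        k * (0.02 * n ^ 2 + 11.2 * n) + 927.18 * k := by ring
    have g4 : (2 * (2 * N + 4) + n + 457) * s = (1.04 * n + 465) * s -
        (1.04 * n + 465 - (2 * (2 * N + 4) + n + 457)) * s := by ring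
    have g5 : 2 * (n - R) * (n - 1) = 2 * n ^ 2 - 2 * n - 2 * (n * R) + 2 * R := by ring
    rw [g3, g4, g5] at h1
    linarith
  obtain ⟨U, hU⟩ : ∃ U : ℝ, U = k * (0.02 * n + 11.2) - 499 - 0.68 * R := ⟨_, rfl⟩
  have hUk : 0 < U ∧ 10.0268 * n * (k * (k - 1)) < U * (1.0555 * n + U) := by
    rcases hk with hk | hk
    · have hP2 : 102 ≤ P := by linarith
      have hk10 : 10 ≤ k := by
        by_contra hc
        push Not at hc
        nlinarith
      refine small_k n k U hn hk10 hk ?_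
      rw [← hP, hU]
      linarith
    · refine big_k n k U hn hk ?_
      rw [hU]
      linarith
  obtain ⟨hU0, hU1⟩ := hUk
  rw [← hP] at hU1
  obtain ⟨δ, hδ⟩ : ∃ δ : ℝ, δ = s - n := ⟨_, rfl⟩
  have hsδ : s = n + δ := by linarith
  have hC : n * U ≤ (1.04 * n + 465) * δ := by
    rw [hU]
    rw [hsδ] at hB
    nlinarith
  have hδ0 : 0 < δ := by
    by_contra hc
    push Not at hc
    have g1 : 0 < n * U := mul_pos hn0 hU0
    have g2 : (1.04 * n + 465) * δ ≤ 0 :=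
      mul_nonpos_of_nonneg_of_nonpos (by linarith) hc
    linarith
  have hD : U ≤ 1.0555 * δ := by
    have g1 : (1.04 * n + 465) * δ ≤ (1.0555 * n) * δ :=
      mul_le_mul_of_nonneg_right (by linarith) hδ0.le
    have g2 : n * U ≤ n * (1.0555 * δ) := by linarith
    exact le_of_mul_le_mul_left g2 hn0
  have hE : (n + δ) * δ ≤ 9 * (n * P) := by
    rw [hsδ] at h2
    linarith
  have hF : U * (1.0555 * n + U) ≤ (1.0555 * δ) * (1.0555 * n + 1.0555 * δ) :=
    mul_le_mul hD (by linarith) (by positivity) (by positivity)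
  have hG : (1.0555 * δ) * (1.0555 * n + 1.0555 * δ) = 1.11408025 * ((n + δ) * δ) := by ring
  have hnP : 0 < n * P := by
    have : 0 < (n + δ) * δ := mul_pos (by linarith) hδ0
    linarith
  linarith

/-- Row NM2. -/
theorem nm2 : Nm2Stmt := by
  intro n N R k s S hn hN hR hS h1 h2 h3
  have hRn : R ≤ n := by omega
  have hn1 : 1 ≤ n := by omega
  have hn9 : 918 ≤ n := by omega
  have hNa : 100 * N ≤ n := by omega
  have hNb : n ≤ 100 * N + 99 := by omega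
  have e1 : ((n - R : ℕ) : ℝ) = (n : ℝ) - R := Nat.cast_sub hRn
  have e2 : ((n - 1 : ℕ) : ℝ) = (n : ℝ) - 1 := by rw [Nat.cast_sub hn1, Nat.cast_one]
  have e3 : ((n - 918 : ℕ) : ℝ) = (n : ℝ) - 918 := by rw [Nat.cast_sub hn9]; norm_num
  have e4 : ((k * (k - 1) : ℕ) : ℝ) = (k : ℝ) * ((k : ℝ) - 1) := by
    rcases Nat.eq_zero_or_pos k with rfl | hk
    · norm_num
    · rw [Nat.cast_mul, Nat.cast_sub hk, Nat.cast_one]
  have r1 : (30000 : ℝ) ≤ n := by exact_mod_cast hn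
  have r2 : (100 : ℝ) * N ≤ n := by exact_mod_cast hNa
  have r3 : (n : ℝ) ≤ 100 * N + 99 := by exact_mod_cast hNb
  have r4 : (22 : ℝ) * R ≤ 16 * n := by exact_mod_cast hR
  have r5 : (S : ℝ) + 132 * N * R ≤ 96 * N * n + 32 * n := by exact_mod_cast hS
  have r6 : (k : ℝ) * (2 * N + 4) * (n + 459) + 2 * ((n - R : ℕ) : ℝ) * ((n - 1 : ℕ) : ℝ) ≤
      (2 * (2 * N + 4) + n + 457) * s + S := by exact_mod_cast h1
  have r7 : (s : ℝ) * s ≤ n * (s + 9 * ((k * (k - 1) : ℕ) : ℝ)) := by exact_mod_cast h2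
  have r8 : (4 : ℝ) * ((n - R : ℕ) : ℝ) * ((n - 918 : ℕ) : ℝ) ≤
      9 * ((k * (k - 1) : ℕ) : ℝ) * ((n - 918 : ℕ) : ℝ) + 4 * S +
        108 * ((n - 918 : ℕ) : ℝ) := by exact_mod_cast h3
  rw [e1, e2] at r6
  rw [e4] at r7
  rw [e1, e3, e4] at r8
  have hk : (k : ℝ) ≤ 56 ∨ (57 : ℝ) ≤ k := by
    rcases Nat.lt_or_ge k 57 with h | h
    · left
      exact_mod_cast (by omega : k ≤ 56)
    · right
      exact_mod_cast h
  exact real_nm n N R k s S r1 (by linarith) (by linarith) (Nat.cast_nonneg R) r4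
    (Nat.cast_nonneg k) (Nat.cast_nonneg s) hk r5 r6 r7 r8

end Pool.Agent.GTO.B3.H15
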